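import Pool.Agent.H68.ZS.TA
import Pool.Agent.H19.ZF.LTB

/-!
# Board zs, row LFA: the logarithm of the inverse of a local factor with small roots
-/

set_option autoImplicit false

namespace Pool.Agent.H96.ZS

open Pool.Agent.H27.ZF Pool.Agent.H68.ZS

/-- the product of the two series is `1` -/
theorem prod_one {m : ℕ} {h q : ℕ → ℂ} {x : ℂ} (hI : Inv m h q)
    (hs : Summable fun k => ‖h k * x ^ k‖) : qv m q x * ∑' k, h k * x ^ k = 1 := by
  have hb0 : ∀ j, j ∉ Finset.range (m + 1) → q j * x ^ j = 0 := fun j hj => by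
    rw [hI.deg j (by simpa using hj), zero_mul]
  have hb : Summable fun j => ‖q j * x ^ j‖ :=
    summable_of_ne_finset_zero (s := Finset.range (m + 1)) fun j hj => by
      rw [hb0 j hj, norm_zero]
  have hq : ∑' j, q j * x ^ j = qv m q x := tsum_eq_sum fun j hj => hb0 j hj
  rw [← hq, tsum_mul_tsum_eq_tsum_sum_antidiagonal_of_summable_norm hb hs, tsum_eq_single 0]
  · simp [hI.h0, hI.q0]
  · intro n hn
    rw [Finset.Nat.sum_antidiagonal_eq_sum_range_succ_mk]
    have h1 : ∀ j ∈ Finset.range n.succ, q j * x ^ j * (h (n - j) * x ^ (n - j)) =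
        x ^ n * (q j * h (n - j)) := by
      intro j hj
      have : x ^ n = x ^ j * x ^ (n - j) := by
        rw [← pow_add]
        congr 1
        have := Finset.mem_range.1 hj
        omega
      rw [this]
      ring
    rw [Finset.sum_congr rfl h1, ← Finset.mul_sum, hI.conv n (by omega), mul_zero]

/-- the factors with the powers of `x` -/
theorem inv_scale {m : ℕ} {h q : ℕ → ℂ} (x : ℂ) (hI : Inv m h q) :
    Inv m (fun k => h k * x ^ k) (fun k => q k * x ^ k) where
  h0 := by simp [hI.h0]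
  q0 := by simp [hI.q0]
  deg := fun j hj => by simp [hI.deg j hj]
  conv := fun n hn => by
    have h1 : ∀ j ∈ Finset.range (n + 1), q j * x ^ j * (h (n - j) * x ^ (n - j)) =
        x ^ n * (q j * h (n - j)) := by
      intro j hj
      have : x ^ n = x ^ j * x ^ (n - j) := by
        rw [← pow_add]
        congr 1
        have := Finset.mem_range.1 hj
        omega
      rw [this]
      ring
    show ∑ j ∈ Finset.range (n + 1), q j * x ^ j * (h (n - j) * x ^ (n - j)) = 0
    rw [Finset.sum_congr rfl h1, ← Finset.mul_sum, hI.conv n hn, mul_zero]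

theorem abs_log_le {y u : ℝ} (hu : u ≤ 1 / 2) (hy : |y - 1| ≤ u) : 0 < y ∧ |Real.log y| ≤ 2 * u := by
  have hu0 : 0 ≤ u := (abs_nonneg _).trans hy
  obtain ⟨h1, h2⟩ := abs_le.1 hy
  have hy0 : 0 < y := by linarith
  refine ⟨hy0, abs_le.2 ⟨?_, ?_⟩⟩
  · have h3 := Real.one_sub_inv_le_log_of_pos hy0
    have h4 : y⁻¹ ≤ 1 + 2 * u := by
      rw [inv_le_comm₀ hy0 (by linarith), inv_eq_one_div, div_le_iff₀ (by linarith)]
      nlinarith
    linarith
  · have h3 := Real.log_le_sub_one_of_pos hy0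
    linarith

/-- LFA. -/
theorem pf_LFA : T_LFA := by
  intro m θ0 hm h0 h1
  obtain ⟨θ1, hθ1, h10, h11⟩ : ∃ θ1 : ℝ, θ0 ≤ θ1 ∧ 0 < θ1 ∧ θ1 < 1 :=
    ⟨max θ0 (1 / 2), le_max_left _ _, lt_max_of_lt_right (by norm_num),
      max_lt h1 (by norm_num)⟩
  have hs : Summable fun k : ℕ => ((m + k).choose k : ℝ) * θ1 ^ k := by
    refine (summable_choose_mul_geometric_of_norm_lt_one m (r := θ1) (by
      rw [Real.norm_of_nonneg h10.le]
      exact h11)).congr fun k => ?_
    rw [← Nat.choose_symm_add, add_comm k m]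
  have hs1 : Summable fun k : ℕ => ((m + (k + 1)).choose (k + 1) : ℝ) * θ1 ^ (k + 1) :=
    (summable_nat_add_iff 1).2 hs
  set A : ℝ := ∑' k : ℕ, ((m + (k + 1)).choose (k + 1) : ℝ) * θ1 ^ (k + 1) with hA
  have hA0 : 0 ≤ A := tsum_nonneg fun k => by positivity
  obtain ⟨C1, hC1⟩ : ∃ C1 : ℝ, C1 = 1 + θ1⁻¹ * A := ⟨_, rfl⟩
  have hC11 : 1 ≤ C1 := by
    rw [hC1]
    have : 0 ≤ θ1⁻¹ * A := by positivity
    linarith
  obtain ⟨C2, hC2, hLTB⟩ := Pool.Agent.H19.ZF.pf_LTB m ((m + m).choose m) (by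
    exact_mod_cast Nat.choose_pos (by omega))
  have hM : (1 : ℝ) ≤ 1 + C1 + C2 := by linarith
  have hlM : 0 ≤ Real.log (1 + C1 + C2) := Real.log_nonneg hM
  refine ⟨2 * C1 + 2 * C1 * Real.log (1 + C1 + C2), by positivity, ?_⟩
  intro h q x θ hI hθ hθ0 hb
  have hθ1' : θ ≤ θ1 := hθ0.trans hθ1
  have hna : Summable fun k => ‖h k * x ^ k‖ := by
    refine Summable.of_nonneg_of_le (fun k => norm_nonneg _) (fun k => ?_) hs
    exact (hb k).trans (mul_le_mul_of_nonneg_left (pow_le_pow_left₀ hθ hθ1' k) (by positivity))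
  have hprod := prod_one hI hna
  set H : ℂ := ∑' k, h k * x ^ k with hH
  have hH1 : ‖H - 1‖ ≤ C1 * θ := by
    have e1 : H = 1 + ∑' k, h (k + 1) * x ^ (k + 1) := by
      rw [hH, hna.of_norm.tsum_eq_zero_add, hI.h0, pow_zero, mul_one]
    rw [e1, add_sub_cancel_left]
    have hna1 : Summable fun k => ‖h (k + 1) * x ^ (k + 1)‖ := (summable_nat_add_iff 1).2 hna
    have hle : ∀ k, ‖h (k + 1) * x ^ (k + 1)‖ ≤
        θ * θ1⁻¹ * (((m + (k + 1)).choose (k + 1) : ℝ) * θ1 ^ (k + 1)) := by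
      intro k
      calc ‖h (k + 1) * x ^ (k + 1)‖ ≤ ((m + (k + 1)).choose (k + 1) : ℝ) * θ ^ (k + 1) := hb _
        _ = ((m + (k + 1)).choose (k + 1) : ℝ) * (θ ^ k * θ) := by rw [pow_succ]
        _ ≤ ((m + (k + 1)).choose (k + 1) : ℝ) * (θ1 ^ k * θ) := by gcongr
        _ = θ * θ1⁻¹ * (((m + (k + 1)).choose (k + 1) : ℝ) * θ1 ^ (k + 1)) := by
          rw [pow_succ]
          field_simp
    calc ‖∑' k, h (k + 1) * x ^ (k + 1)‖ ≤ ∑' k, ‖h (k + 1) * x ^ (k + 1)‖ :=
          norm_tsum_le_tsum_norm hna1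
      _ ≤ ∑' k, θ * θ1⁻¹ * (((m + (k + 1)).choose (k + 1) : ℝ) * θ1 ^ (k + 1)) :=
          hna1.tsum_le_tsum hle (hs1.mul_left _)
      _ = θ * θ1⁻¹ * A := by rw [tsum_mul_left]
      _ ≤ C1 * θ := by
          rw [hC1]
          nlinarith
  have hqH : ‖qv m q x‖ * ‖H‖ = 1 := by rw [← norm_mul, hprod, norm_one]
  have hq0 : 0 < ‖qv m q x‖ := by
    rcases (norm_nonneg (qv m q x)).eq_or_lt with h2 | h2
    · rw [← h2, zero_mul] at hqH
      exact absurd hqH (by norm_num)
    · exact h2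
  have hHp : 0 < ‖H‖ := by
    rcases (norm_nonneg H).eq_or_lt with h2 | h2
    · rw [← h2, mul_zero] at hqH
      exact absurd hqH (by norm_num)
    · exact h2
  have hlog : Real.log ‖qv m q x‖ = -Real.log ‖H‖ := by
    have h2 := congrArg Real.log hqH
    rw [Real.log_mul hq0.ne' hHp.ne', Real.log_one] at h2
    linarith
  refine ⟨hq0, ?_⟩
  have hHn : |‖H‖ - 1| ≤ C1 * θ := by
    have h2 := abs_norm_sub_norm_le H 1
    rw [norm_one] at h2
    exact h2.trans hH1
  rcases le_or_gt (C1 * θ) (1 / 2) with hc | hc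
  · have h2 := (abs_log_le hc hHn).2
    rw [hlog, abs_neg]
    have h3 : 0 ≤ C1 * Real.log (1 + C1 + C2) * θ := by positivity
    nlinarith
  · -- both norms are bounded
    have hHle : ‖H‖ ≤ 1 + C1 + C2 := by
      have h2 := (abs_le.1 hHn).2
      have h3 : C1 * θ ≤ C1 := by nlinarith
      linarith
    have hqle : ‖qv m q x‖ ≤ 1 + C1 + C2 := by
      have h2 := hLTB (fun k => h k * x ^ k) (fun k => q k * x ^ k) 1 (inv_scale x hI) le_rfl
        (fun k hk => by
          rw [one_pow, mul_one]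
          refine (hb k).trans ?_
          calc ((m + k).choose k : ℝ) * θ ^ k ≤ ((m + k).choose k : ℝ) * 1 := by
                refine mul_le_mul_of_nonneg_left (pow_le_one₀ hθ (by linarith)) (by positivity)
            _ = ((m + k).choose m : ℝ) := by rw [mul_one, ← Nat.choose_symm_add]
            _ ≤ ((m + m).choose m : ℝ) := by
                exact_mod_cast Nat.choose_le_choose m (by omega)) 1 (by simp)
      rw [one_pow, mul_one] at h2
      have h3 : qv m (fun k => q k * x ^ k) 1 = qv m q x := by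
        unfold qv
        simp
      rw [h3] at h2
      linarith
    have h2 : Real.log ‖H‖ ≤ Real.log (1 + C1 + C2) := Real.log_le_log hHp hHle
    have h3 : Real.log ‖qv m q x‖ ≤ Real.log (1 + C1 + C2) := Real.log_le_log hq0 hqle
    have h4 : |Real.log ‖qv m q x‖| ≤ Real.log (1 + C1 + C2) := by
      rw [abs_le]
      exact ⟨by linarith, h3⟩
    have h5 : 1 ≤ 2 * C1 * θ := by linarith
    have h6 : Real.log (1 + C1 + C2) ≤ 2 * C1 * θ * Real.log (1 + C1 + C2) :=
      le_mul_of_one_le_left hlM h5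
    have h7 : 0 ≤ 2 * C1 * θ := by linarith
    linarith

end Pool.Agent.H96.ZS
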